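import Pool.Agent.H38.Core.Proof

open Pool.Agent.H38.NP Pool.Agent.H38.Core

theorem Pool.Agent.Results.MP_54ee58_lc.Hard.result :
    NPHard (lang fun p : ℕ × List (ℕ × ℕ) =>
      core (graphOf p.1 p.2) = nucleus (graphOf p.1 p.2)) :=
  np_hard.npHard fun _ _ => Iff.rfl
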